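import Pool.Agent.Y89.TS.Dich3
import Pool.Agent.Y89.KS.MainE2

/-!
# Zero-one law: the Hodge conjecture for the powers of a Kuga-Satake variety
-/

open Matrix Finset Function

set_option linter.unusedSectionVars false

namespace Pool.Agent.Y89.TS

noncomputable section

open Pool.Agent.W544.PG (HS HW mC cspan cx)
open Pool.Agent.Y89.KS
open Pool.Agent.Y761.TS (act_act act_one actL)

section herm
variable {w : ℕ}

/-- the Weil operator -/
abbrev JW (W : HW w) : Matrix (Fin w) (Fin w) ℂ := (2 * Complex.I) • W.y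

theorem JW_sq (W : HW w) : JW W * JW W = -1 := by
  rw [Matrix.smul_mul, Matrix.mul_smul, smul_smul]
  have h1 : (2 * Complex.I) * (2 * Complex.I) = -4 := by
    linear_combination 4 * Complex.I_mul_I
  rw [h1, neg_smul, W.sq]

/-- the hermitian form of `W` is real -/
theorem HW_real (W : HW w) : (HWm W).map cc = HWm W := by
  unfold HWm
  rw [mul_map', mC_map']
  congr 1
  have h1 : ((2 * Complex.I) • W.y).map cc = -((2 * Complex.I) • W.y.map cc) := by
    ext a b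
    simp
  rw [h1, y_cc, smul_neg, neg_neg]

/-- the real form -/
def GR (W : HW w) : Matrix (Fin w) (Fin w) ℝ := (HWm W).map Complex.re

theorem rc_GR (W : HW w) : rc (GR W) = HWm W := by
  ext a b
  have h := congrFun (congrFun (HW_real W) a) b
  rw [Matrix.map_apply] at h
  exact Complex.conj_eq_iff_re.1 h

theorem GR_symm (W : HW w) : (GR W)ᵀ = GR W := by
  ext a b
  have h1 := congrFun (congrFun (HW_herm W) a) b
  rw [Matrix.conjTranspose_apply] at h1
  change (HWm W b a).re = (HWm W a b).re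
  rw [← h1]
  simp

theorem GR_pos (W : HW w) (v : Fin w → ℝ) (hv : v ≠ 0) : 0 < v ⬝ᵥ GR W *ᵥ v := by
  have h0 : (fun i => (v i : ℂ)) ≠ 0 := by
    intro h
    apply hv
    funext i
    have := congrFun h i
    exact Complex.ofReal_eq_zero.1 this
  have h1 := HW_pos W (fun i => (v i : ℂ)) h0
  have h2 : (star (fun i => (v i : ℂ)) ⬝ᵥ HWm W *ᵥ (fun i => (v i : ℂ))) =
      ((v ⬝ᵥ GR W *ᵥ v : ℝ) : ℂ) := by
    rw [← rc_GR]
    simp [dotProduct, Matrix.mulVec]
  rw [h2, Complex.ofReal_re] at h1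
  exact h1

theorem exists_S (W : HW w) : ∃ S : Matrix (Fin w) (Fin w) ℝ, Sᵀ * S = GR W ∧ S.det ≠ 0 := by
  obtain ⟨S, hS⟩ := real_root (GR W) (GR_symm W) (GR_pos W)
  refine ⟨S, hS, fun h0 => ?_⟩
  obtain ⟨v, hv, hv0⟩ := Matrix.exists_mulVec_eq_zero_iff.2 h0
  have h1 := GR_pos W v hv
  rw [← hS, ← Matrix.mulVec_mulVec, hv0, Matrix.mulVec_zero, dotProduct_zero] at h1
  exact lt_irrefl _ h1

theorem HW_inv (W : HW w) : (HWm W)⁻¹ = -(JW W) * (mC W.E)⁻¹ := by
  apply Matrix.inv_eq_right_inv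
  unfold HWm
  rw [Matrix.mul_assoc, ← Matrix.mul_assoc ((2 * Complex.I) • W.y), Matrix.mul_neg]
  change mC W.E * (-(JW W * JW W) * (mC W.E)⁻¹) = 1
  rw [JW_sq, neg_neg, Matrix.one_mul, Einv]

end herm

section main
variable {n w : ℕ} {V : HS n} {W : HW w} {Γ : Fin n → Matrix (Fin w) (Fin w) ℚ} {c : ℚ}
  {B : ∀ k : ℕ, Submodule ℚ ((Fin k → Fin w) → ℚ)} {U U' : Matrix (Fin n) (Fin n) ℂ}

theorem sysB (hB : CyclesW W B) : Sys (mC W.E)⁻¹ (fun k => cspan (B k)) := by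
  have h := cpx _ _ _ hB.sys
  have h1 : (W.E⁻¹).map (fun q : ℚ => (q : ℂ)) = (mC W.E)⁻¹ := by
    symm
    apply Matrix.inv_eq_right_inv
    have h2 : mC (W.E * W.E⁻¹) = mC W.E * mC W.E⁻¹ := mC_mul' _ _
    rw [Matrix.mul_nonsing_inv _ (isUnit_iff_ne_zero.2 (dE W))] at h2
    change mC W.E * mC W.E⁻¹ = 1
    rw [← h2]
    ext a b
    by_cases hab : a = b
    · subst hab; simp [mC]
    · simp [mC, hab]
  rw [h1] at h
  exact h

theorem conj_span {k : ℕ} {f : (Fin k → Fin w) → ℂ} (hf : f ∈ cspan (B k)) :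
    (fun J => starRingEnd ℂ (f J)) ∈ cspan (B k) := by
  unfold cspan at hf ⊢
  induction hf using Submodule.span_induction with
  | mem f hf =>
    obtain ⟨t, ht, rfl⟩ := hf
    refine Submodule.subset_span ⟨t, ht, ?_⟩
    funext J
    simp [cx]
  | zero =>
    convert Submodule.zero_mem _ using 1
    funext J
    simp
  | add a b _ _ ha hb =>
    convert Submodule.add_mem _ ha hb using 1
    funext J
    simp
  | smul c a _ ha =>
    convert Submodule.smul_mem _ (starRingEnd ℂ c) ha using 1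
    funext J
    simp

theorem act_neg (g : Matrix (Fin w) (Fin w) ℂ) {k : ℕ} (f : (Fin k → Fin w) → ℂ) :
    act (-g) f = ((-1 : ℂ) ^ k) • act g f := by
  funext I
  unfold act
  rw [Pi.smul_apply, smul_eq_mul, Finset.mul_sum]
  refine Finset.sum_congr rfl fun J _ => ?_
  have h1 : ∏ s, (-g) (I s) (J s) = (-1 : ℂ) ^ k * ∏ s, g (I s) (J s) := by
    simp only [Matrix.neg_apply]
    rw [Finset.prod_neg]
    simp
  rw [h1, mul_assoc]

theorem weil_span (hweil : S_weil) (hH : ∀ k : ℕ, ∀ t ∈ B k, HodgeW W t) {k : ℕ}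
    {f : (Fin k → Fin w) → ℂ} (hf : f ∈ cspan (B k)) : act (-(JW W))ᵀ f ∈ cspan (B k) := by
  rw [Matrix.transpose_neg, act_neg]
  refine Submodule.smul_mem _ _ ?_
  have h1 : der W.y f = 0 := by
    have h2 := y_LB hH (RingEquiv.refl ℂ)
    rw [KS.map_refl] at h2
    exact LB_span h2 hf
  rw [hweil (Fin w) W.y W.sq k f h1]
  exact hf

/-- the tensor `Θ` in the orthonormal basis -/
theorem theta_ga (h : Cliff V W Γ c) (hU : Uᵀ * ((c : ℂ) • mC V.Q) * U = 1) (hUU : U * U' = 1) :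
    cx (theta V W Γ) = fun J : Fin 4 → Fin w =>
      ∑ a, ((c : ℂ) • (mC W.E * ga Γ U a)) (J 0) (J 1) * (mC W.E * ga Γ U a) (J 2) (J 3) := by
  have hU'U : U' * U = 1 := mul_eq_one_comm.1 hUU
  have h1 : (c : ℂ) • (U * Uᵀ) = (mC V.Q)⁻¹ := by
    have h2 : (Uᵀ * ((c : ℂ) • mC V.Q)) * U = 1 := hU
    have h3 : U * (Uᵀ * ((c : ℂ) • mC V.Q)) = 1 := mul_eq_one_comm.1 h2
    rw [Matrix.mul_smul, Matrix.mul_smul, ← Matrix.mul_assoc, ← Matrix.smul_mul] at h3
    symm
    exact Matrix.inv_eq_left_inv h3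
  have hQ : ∀ i j, ((V.Q⁻¹ i j : ℚ) : ℂ) = (mC V.Q)⁻¹ i j := by
    intro i j
    have h2 : mC V.Q⁻¹ = (mC V.Q)⁻¹ := by
      symm
      apply Matrix.inv_eq_right_inv
      exact mC_Qinv V
    rw [← h2]
    rfl
  have hE : ∀ (i : Fin n) (a b : Fin w), (((W.E * Γ i) a b : ℚ) : ℂ) = (mC W.E * mC (Γ i)) a b := by
    intro i a b
    rw [← mC_mul']
    rfl
  funext J
  have hl : cx (theta V W Γ) J = ∑ i, ∑ j, (mC V.Q)⁻¹ i j * (mC W.E * mC (Γ i)) (J 0) (J 1) *
      (mC W.E * mC (Γ j)) (J 2) (J 3) := by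
    unfold cx theta
    push_cast
    refine Finset.sum_congr rfl fun i _ => Finset.sum_congr rfl fun j _ => ?_
    rw [hQ, hE, hE]
  rw [hl]
  have hg : ∀ a (p q : Fin w), (mC W.E * ga Γ U a) p q =
      ∑ i, U i a * (mC W.E * mC (Γ i)) p q := by
    intro a p q
    rw [ga_apply, Finset.mul_sum, Matrix.sum_apply]
    refine Finset.sum_congr rfl fun i _ => ?_
    rw [Matrix.mul_smul, Matrix.smul_apply, smul_eq_mul]
  simp only [Matrix.smul_apply, smul_eq_mul, hg]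
  have h4 : ∀ i j, (mC V.Q)⁻¹ i j = ∑ a, (c : ℂ) * (U i a * U j a) := by
    intro i j
    rw [← h1, Matrix.smul_apply, Matrix.mul_apply, smul_eq_mul, Finset.mul_sum]
    rfl
  simp only [h4, Finset.sum_mul, Finset.mul_sum]
  rw [Finset.sum_comm]
  have h5 : ∀ j : Fin n, ∑ i : Fin n, ∑ a : Fin n, (c : ℂ) * (U i a * U j a) *
      (mC W.E * mC (Γ i)) (J 0) (J 1) * (mC W.E * mC (Γ j)) (J 2) (J 3) =
      ∑ a : Fin n, ∑ i : Fin n, (c : ℂ) * (U i a * U j a) *
      (mC W.E * mC (Γ i)) (J 0) (J 1) * (mC W.E * mC (Γ j)) (J 2) (J 3) :=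
    fun j => Finset.sum_comm
  simp only [h5]
  rw [Finset.sum_comm]
  refine Finset.sum_congr rfl fun a _ => Finset.sum_congr rfl fun j _ =>
    Finset.sum_congr rfl fun i _ => ?_
  ring

/-- the class `Θ` is invariant under the symmetries of the system -/
theorem theta_inv (htheta : S_theta) (h : Cliff V W Γ c) (hB : CyclesW W B) (hn : Odd n)
    (hU : Uᵀ * ((c : ℂ) • mC V.Q) * U = 1) (hUU : U * U' = 1)
    (hga : ∀ i j, i ≠ j → ga Γ U i * ga Γ U j ∈ LB B)
    (hL : ∀ a ∈ LB B, a ∈ Submodule.span ℂ {z | ∃ i j, i ≠ j ∧ z = ga Γ U i * ga Γ U j})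
    {g : Matrix (Fin w) (Fin w) ℂ} (hg : ∀ (l : ℕ), ∀ x ∈ cspan (B l), act gᵀ x = x) :
    act gᵀ (cx (theta V W Γ)) = cx (theta V W Γ) := by
  have hE : gᵀ * mC W.E * g = mC W.E := by
    have h1 := hg 2 _ (E_span hB)
    rw [act_bil] at h1
    exact bil_inj h1
  obtain ⟨g', hg'⟩ : ∃ g', g' = (mC W.E)⁻¹ * gᵀ * mC W.E := ⟨_, rfl⟩
  have h1 : g' * g = 1 := by
    rw [hg', Matrix.mul_assoc, Matrix.mul_assoc, ← Matrix.mul_assoc gᵀ, hE, Einv']
  have h2 : g * g' = 1 := mul_eq_one_comm.1 h1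
  have hEg : gᵀ * mC W.E = mC W.E * g' := by
    rw [hg', Matrix.mul_assoc, ← Matrix.mul_assoc (mC W.E), Einv, Matrix.one_mul]
  have hd : ∀ d, InD (ga Γ U) d → g * d = d * g := by
    intro d hd
    have h3 := hg 2 _ (lef_span hB (inD_DD h hU hUU hd))
    rw [act_bil] at h3
    have h4 := bil_inj h3
    rw [← Matrix.mul_assoc, hEg, Matrix.mul_assoc, Matrix.mul_assoc] at h4
    have h5 := E_cancel W h4
    calc g * d = g * (g' * (d * g)) := by rw [h5]
      _ = d * g := by rw [← Matrix.mul_assoc, h2, Matrix.one_mul]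
  have hN : ∀ i j, i ≠ j → g * (ga Γ U i * ga Γ U j) * g' ∈
      Submodule.span ℂ {z | ∃ i j, i ≠ j ∧ z = ga Γ U i * ga Γ U j} := by
    intro i j hij
    apply hL
    intro k t ht
    set Y := ga Γ U i * ga Γ U j with hY
    have h3 : act gᵀ (der (g * Y * g') (cx t)) = 0 := by
      rw [act_der g (g * Y * g') Y (by rw [Matrix.mul_assoc, h1, Matrix.mul_one]) (cx t),
        hg k _ (Submodule.subset_span ⟨t, ht, rfl⟩)]
      exact hga i j hij k t ht
    have h4 := congrArg (act g'ᵀ) h3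
    rw [act_act, ← Matrix.transpose_mul, h2, Matrix.transpose_one, act_one] at h4
    rw [h4]
    exact map_zero (actL g'ᵀ k)
  have hT := htheta (Fin w) n (ga Γ U) (ga_clf h hU) hn g g' h2 h1 hd hN
  have hT' : ∀ M : Matrix (Fin w) (Fin w) ℂ,
      ∑ i, ((g' * ga Γ U i * g) * M).trace • (g' * ga Γ U i * g) =
      ∑ i, (ga Γ U i * M).trace • ga Γ U i := by
    intro M
    have h3 := hT (g * M * g')
    have h4 := congrArg (fun Z => g' * Z * g) h3
    simp only [Finset.mul_sum, Finset.sum_mul, Matrix.mul_smul, Matrix.smul_mul] at h4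
    have h5 : ∀ i, g' * (g * ga Γ U i * g') * g = ga Γ U i := by
      intro i
      calc g' * (g * ga Γ U i * g') * g = (g' * g) * ga Γ U i * (g' * g) := by
            simp only [Matrix.mul_assoc]
        _ = ga Γ U i := by rw [h1, Matrix.one_mul, Matrix.mul_one]
    have h6 : g' * (g * M * g') * g = M := by
      calc g' * (g * M * g') * g = (g' * g) * M * (g' * g) := by simp only [Matrix.mul_assoc]
        _ = M := by rw [h1, Matrix.one_mul, Matrix.mul_one]
    simp only [h5, h6] at h4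
    rw [h4]
    refine Finset.sum_congr rfl fun i _ => ?_
    congr 1
    calc (g' * ga Γ U i * g * M).trace = (g' * (ga Γ U i * (g * M))).trace := by
          simp only [Matrix.mul_assoc]
      _ = ((ga Γ U i * (g * M)) * g').trace := Matrix.trace_mul_comm _ _
      _ = (ga Γ U i * (g * M * g')).trace := by simp only [Matrix.mul_assoc]
  rw [theta_ga h hU hUU, bil4]
  have h7 : ∀ a, gᵀ * (mC W.E * ga Γ U a) * g = mC W.E * (g' * ga Γ U a * g) := by
    intro a
    rw [← Matrix.mul_assoc, hEg]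
    simp only [Matrix.mul_assoc]
  simp only [Matrix.mul_smul, Matrix.smul_mul, h7]
  funext J
  have h8 : ∀ (Z : Matrix (Fin w) (Fin w) ℂ) (p q : Fin w),
      (mC W.E * Z) p q = (Z * (Matrix.single q p 1 * mC W.E)).trace := by
    intro Z p q
    rw [← Matrix.mul_assoc, Matrix.trace_mul_comm, ← Matrix.mul_assoc, Matrix.trace_mul_comm,
      Matrix.trace_single_mul]
    simp
  have h9 := congrArg (fun Z => (mC W.E * Z) (J 2) (J 3))
    (hT' (Matrix.single (J 1) (J 0) 1 * mC W.E))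
  simp only [Finset.mul_sum, Matrix.sum_apply, Matrix.mul_smul, Matrix.smul_apply, smul_eq_mul,
    ← h8] at h9
  have h10 : ∀ K L : Fin n → Matrix (Fin w) (Fin w) ℂ,
      ∑ a, ((c : ℂ) • K a) (J 0) (J 1) * L a (J 2) (J 3) =
        (c : ℂ) * ∑ a, K a (J 0) (J 1) * L a (J 2) (J 3) := by
    intro K L
    rw [Finset.mul_sum]
    refine Finset.sum_congr rfl fun a _ => ?_
    rw [Matrix.smul_apply, smul_eq_mul, mul_assoc]
  rw [h10, h10, h9]

theorem cspan_dsc {k : ℕ} {t : (Fin k → Fin w) → ℚ} (h : cx t ∈ cspan (B k)) : t ∈ B k := by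
  refine dsc2 _ (B k) t ?_
  refine Submodule.span_mono ?_ h
  rintro g ⟨s, hs, rfl⟩
  exact ⟨s, hs, rfl⟩

/-- the class `Θ` is in the system -/
theorem theta_mem (hT : S_T0R) (hweil : S_weil) (htheta : S_theta) (h : Cliff V W Γ c)
    (hB : CyclesW W B) (hH : ∀ k : ℕ, ∀ t ∈ B k, HodgeW W t) (hn : Odd n)
    (hU : Uᵀ * ((c : ℂ) • mC V.Q) * U = 1) (hUU : U * U' = 1)
    (hga : ∀ i j, i ≠ j → ga Γ U i * ga Γ U j ∈ LB B)
    (hL : ∀ a ∈ LB B, a ∈ Submodule.span ℂ {z | ∃ i j, i ≠ j ∧ z = ga Γ U i * ga Γ U j}) :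
    theta V W Γ ∈ B 4 := by
  apply cspan_dsc
  obtain ⟨S, hS, hS0⟩ := exists_S W
  refine hT (Fin w) (mC W.E)⁻¹ (-(JW W)) S (fun k => cspan (B k)) (sysB hB) hS0 ?_
    (fun k f hf => conj_span hf) (fun k f hf => weil_span hweil hH hf) 4 _ ?_
  · rw [hS, rc_GR, HW_inv]
  · intro g _ hg
    exact theta_inv htheta h hB hn hU hUU hga hL hg

/-- the zero-one law -/
theorem zeroOne (hT : S_T0R) (hweil : S_weil) (hmax : S_max) (htheta : S_theta)
    (hV : (V.x * V.x).trace = 2) (hS : V.Scalar) (hn : n % 4 = 1)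
    (h : Cliff V W Γ c) (hB : CyclesW W B) (hH : ∀ k : ℕ, ∀ t ∈ B k, HodgeW W t)
    {X : Matrix (Fin w) (Fin w) ℂ} {m : ℕ} {f : (Fin m → Fin w) → ℚ} (hf : f ∈ B m)
    (hX : ∀ D : Matrix (Fin w) (Fin w) ℚ, mC D * W.y = W.y * mC D → X * mC D = mC D * X)
    (hX' : Xᵀ * mC W.E + mC W.E * X = 0) (hXf : der X (cx f) ≠ 0)
    {k : ℕ} {t : (Fin k → Fin w) → ℚ} (ht : HodgeW W t) : t ∈ B k := by
  obtain ⟨U, U', hU, hUU, -⟩ := exists_onb V h.ne
  refine mainE hV h hB ?_ ht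
  refine theta_mem hT hweil htheta h hB hH ?_ hU hUU
    (fun i j hij => ga_mem hV hS h hH hU hij)
    (spin_case hmax hV hS hn h hB hH hU hUU hf hX hX' hXf)
  exact Nat.odd_iff.2 (by omega)

end main

end

end Pool.Agent.Y89.TS
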