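import Mathlib

/-!
# Tensor systems and compact groups (Tannaka-Schrijver theorem): definitions and parts

`ι` is the index set of an orthonormal basis of a hermitian space, `(Fin k → ι) → ℂ` the space of
the tensors of degree `k`.
-/

open Matrix Finset

namespace Pool.Agent.Y89.TS

noncomputable section

section
variable {ι : Type} [Fintype ι]

/-- the action of a matrix on tensors -/
def act (g : Matrix ι ι ℂ) {k : ℕ} (f : (Fin k → ι) → ℂ) : (Fin k → ι) → ℂ :=
  fun I => ∑ J : Fin k → ι, (∏ s, g (I s) (J s)) * f J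

/-- A tensor system: closed under products, permutations of the slots, complex conjugation and
full contractions. -/
structure TSys (A : ∀ k : ℕ, Submodule ℂ ((Fin k → ι) → ℂ)) : Prop where
  unit : (fun _ => 1) ∈ A 0
  mul : ∀ (k l : ℕ) (f : (Fin k → ι) → ℂ) (g : (Fin l → ι) → ℂ), f ∈ A k → g ∈ A l →
    (fun J : Fin (k + l) → ι =>
      f (fun i => J (Fin.castAdd l i)) * g (fun i => J (Fin.natAdd k i))) ∈ A (k + l)
  perm : ∀ (k : ℕ) (σ : Equiv.Perm (Fin k)) (f : (Fin k → ι) → ℂ), f ∈ A k →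
    (fun J : Fin k → ι => f (fun i => J (σ i))) ∈ A k
  conj : ∀ (k : ℕ) (f : (Fin k → ι) → ℂ), f ∈ A k →
    (fun J : Fin k → ι => starRingEnd ℂ (f J)) ∈ A k
  pair : ∀ (k b : ℕ) (f : (Fin (k + b) → ι) → ℂ) (f' : (Fin b → ι) → ℂ), f ∈ A (k + b) →
    f' ∈ A b → (fun I : Fin k → ι => ∑ J : Fin b → ι, f' J * f (Fin.append I J)) ∈ A k

/-- the mixed action: `g` on the slots with `t s = true`, the complex conjugate of `g` on the
others -/
def mact {κ : Type} [Fintype κ] [DecidableEq κ] (t : κ → Bool) (g : Matrix ι ι ℂ)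
    (F : (κ → ι) → ℂ) : (κ → ι) → ℂ :=
  fun I => ∑ J : κ → ι, (∏ s, cond (t s) (g (I s) (J s)) (starRingEnd ℂ (g (I s) (J s)))) * F J

/-- the product of the Kronecker symbols of a matching of the slots of the two types -/
def mtch [DecidableEq ι] {κ : Type} [Fintype κ] (t : κ → Bool)
    (β : {k // t k = true} ≃ {k // t k = false}) : (κ → ι) → ℂ :=
  fun I => ∏ k, if I k.1 = I (β k).1 then 1 else 0

end

/-- (SW) Stone-Weierstrass without separation of points -/
def S_sw : Prop := ∀ (X : Type) [TopologicalSpace X] [CompactSpace X]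
  (S : StarSubalgebra ℂ C(X, ℂ)) (φ : C(X, ℂ)),
  (∀ x y : X, (∀ s ∈ S, s x = s y) → φ x = φ y) →
  ∀ ε : ℝ, 0 < ε → ∃ s ∈ S, ∀ x, ‖φ x - s x‖ ≤ ε

/-- (FIX) fixed points of groups of isometries in closed convex sets -/
def S_fix : Prop := ∀ (P : Type) [Fintype P]
  (G : Set (EuclideanSpace ℂ P →ₗᵢ[ℂ] EuclideanSpace ℂ P)) (C : Set (EuclideanSpace ℂ P)),
  C.Nonempty → IsClosed C → Convex ℝ C → (∀ g ∈ G, ∀ x ∈ C, g x ∈ C) →
  ∃ x ∈ C, ∀ g ∈ G, g x = x

/-- (EQV) invariance under the unitary group implies invariance under its complexified Lie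
algebra -/
def S_eqv : Prop := ∀ (ι : Type) [Fintype ι] [DecidableEq ι] (κ : Type) [Fintype κ]
  [DecidableEq κ] (t : κ → Bool) (F : (κ → ι) → ℂ),
  (∀ g : Matrix ι ι ℂ, gᴴ * g = 1 → mact t g F = F) →
  ∀ (p q : ι) (I : κ → ι),
    ∑ k, (cond (t k) (if I k = p then F (Function.update I k q) else 0)
      (-(if I k = q then F (Function.update I k p) else 0))) = 0

/-- (GL) the first fundamental theorem for the general linear Lie algebra -/
def S_gl : Prop := ∀ (ι : Type) [Fintype ι] [DecidableEq ι] (κ : Type) [Fintype κ]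
  [DecidableEq κ] (t : κ → Bool) (F : (κ → ι) → ℂ),
  (∀ (p q : ι) (I : κ → ι),
    ∑ k, (cond (t k) (if I k = p then F (Function.update I k q) else 0)
      (-(if I k = q then F (Function.update I k p) else 0))) = 0) →
  F ∈ Submodule.span ℂ (Set.range (mtch (ι := ι) t))

/-- (LIN) invariant linear maps preserve the tensor systems -/
def S_lin : Prop := ∀ (ι : Type) [Fintype ι] [DecidableEq ι]
  (A : ∀ k : ℕ, Submodule ℂ ((Fin k → ι) → ℂ)), TSys A → ∀ (k a b : ℕ)
  (F : (Fin k ⊕ (Fin a ⊕ Fin b) → ι) → ℂ),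
  F ∈ Submodule.span ℂ (Set.range (mtch (ι := ι)
    (Sum.elim (fun _ : Fin k => true) (Sum.elim (fun _ : Fin a => false) fun _ : Fin b => true)))) →
  ∀ (f : (Fin a → ι) → ℂ) (f' : (Fin b → ι) → ℂ), f ∈ A a → f' ∈ A b →
  (fun I : Fin k → ι => ∑ J : Fin a → ι, ∑ J' : Fin b → ι,
    F (Sum.elim I (Sum.elim J J')) * f J * f' J') ∈ A k

/-- (T0) Tannaka-Schrijver theorem: a tensor system consists of the invariants of a group of
unitary matrices -/
def S_T0 : Prop := ∀ (ι : Type) [Fintype ι] [DecidableEq ι]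
  (A : ∀ k : ℕ, Submodule ℂ ((Fin k → ι) → ℂ)), TSys A → ∀ (k : ℕ) (f : (Fin k → ι) → ℂ),
  (∀ g : Matrix ι ι ℂ, gᴴ * g = 1 → (∀ (l : ℕ), ∀ x ∈ A l, act g x = x) → act g f = f) →
  f ∈ A k

end

end Pool.Agent.Y89.TS
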