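import Pool.Agent.Y89.TS.Stm2
import Pool.Agent.Y89.KS.Uni
import Pool.Agent.Y89.KS.Ghc
import Pool.Agent.Y89.KS.MainE

/-!
# Zero-one law: the Lie algebra of the symmetries of a system of classes
-/

open Matrix Finset Function

set_option linter.unusedSectionVars false

namespace Pool.Agent.Y89.TS

noncomputable section

open Pool.Agent.W544.PG (HS HW mC cspan cx)
open Pool.Agent.Y89.KS

section
variable {n w : ℕ}

theorem noEnd_of_scalar {V : HS n} (hS : V.Scalar) : NoEnd V := by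
  intro P hP
  obtain ⟨c, hc⟩ := hS P hP
  refine ⟨c, ?_⟩
  rw [hc]
  have h1 : mC (c • (1 : Matrix (Fin n) (Fin n) ℚ)) = (c : ℂ) • (1 : Matrix (Fin n) (Fin n) ℂ) := by
    ext a b
    by_cases hab : a = b
    · subst hab; simp [mC]
    · simp [mC, hab]
  rw [h1, Matrix.smul_mul, Matrix.one_mul]

theorem adV_one (V : HS n) : adV V 1 = 1 := by
  unfold adV adj
  rw [transpose_one, Matrix.mul_one, RQ]

/-- if the endomorphisms are scalars, the Lie algebra is the full orthogonal algebra -/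
theorem wdg_mem {V : HS n} (hV : (V.x * V.x).trace = 2) (hS : V.Scalar) (a b : Fin n → ℂ) :
    wdg (mC V.Q) a b ∈ g0 V := by
  obtain ⟨P, hP⟩ := exists_full V hV (noEnd_of_scalar hS)
  have h1 : ∀ σ : ℂ ≃+* ℂ, (1 - P) * V.x.map σ = V.x.map σ * (1 - P) := by
    intro σ
    rw [Matrix.sub_mul, Matrix.mul_sub, hP.all, hP.all', Matrix.one_mul, Matrix.mul_one]
  have h2 := Pool.Agent.W696.PG.de2 n V (1 - P) h1
  have h3 : ∃ a : ℂ, 1 - P = a • (1 : Matrix (Fin n) (Fin n) ℂ) := by
    clear h1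
    generalize 1 - P = P' at h2 ⊢
    induction h2 using Submodule.span_induction with
    | mem D hD =>
      obtain ⟨D, rfl, hD⟩ := hD
      obtain ⟨c, hc⟩ := hS D hD
      refine ⟨c, ?_⟩
      rw [hc]
      ext a b
      by_cases hab : a = b
      · subst hab; simp [mC]
      · simp [mC, hab]
    | zero => exact ⟨0, by simp⟩
    | add a b _ _ ha hb =>
      obtain ⟨a', ha'⟩ := ha
      obtain ⟨b', hb'⟩ := hb
      exact ⟨a' + b', by rw [ha', hb', add_smul]⟩
    | smul t a _ ha =>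
      obtain ⟨a', ha'⟩ := ha
      exact ⟨t * a', by rw [ha', smul_smul]⟩
  obtain ⟨t, ht⟩ := h3
  have h4 : (1 - P) * V.x = 0 := by
    have h5 := hP.all (RingEquiv.refl ℂ)
    rw [KS.map_refl] at h5
    rw [Matrix.sub_mul, h5, Matrix.one_mul, sub_self]
  rw [ht, Matrix.smul_mul, Matrix.one_mul] at h4
  have h6 := (smul_eq_zero.1 h4).resolve_right hP.ne
  rw [h6, zero_smul, sub_eq_zero] at ht
  have h7 := hP.blk.wedge a b
  rw [← ht, adV_one, Matrix.one_mulVec, Matrix.one_mulVec] at h7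
  exact h7

/-- the infinitesimal symmetries of a system -/
def LB (B : ∀ k : ℕ, Submodule ℚ ((Fin k → Fin w) → ℚ)) :
    Submodule ℂ (Matrix (Fin w) (Fin w) ℂ) where
  carrier := {X | ∀ k : ℕ, ∀ t ∈ B k, der X (cx t) = 0}
  zero_mem' := fun k t _ => der_zero _
  add_mem' := by
    intro a b ha hb k t ht
    rw [der_add, ha k t ht, hb k t ht, add_zero]
  smul_mem' := by
    intro c a ha k t ht
    rw [der_smul, ha k t ht, smul_zero]

variable {V : HS n} {W : HW w} {Γ : Fin n → Matrix (Fin w) (Fin w) ℚ} {c : ℚ}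
  {B : ∀ k : ℕ, Submodule ℚ ((Fin k → Fin w) → ℚ)}

theorem mem_LB {X : Matrix (Fin w) (Fin w) ℂ} :
    X ∈ LB B ↔ ∀ k : ℕ, ∀ t ∈ B k, der X (cx t) = 0 := Iff.rfl

theorem LB_br : ∀ a ∈ LB B, ∀ b ∈ LB B, a * b - b * a ∈ LB B := by
  intro a ha b hb k t ht
  rw [Pool.Agent.Y175.KS.Mix.der_lie a b, ha k t ht, hb k t ht]
  have h1 : ∀ z : Matrix (Fin w) (Fin w) ℂ, der z (0 : (Fin k → Fin w) → ℂ) = 0 := by
    intro z
    funext J
    simp [der, sl]
  rw [h1, h1, sub_zero]

theorem LB_span {X : Matrix (Fin w) (Fin w) ℂ} (hX : X ∈ LB B) {k : ℕ}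
    {f : (Fin k → Fin w) → ℂ} (hf : f ∈ cspan (B k)) : der X f = 0 := by
  unfold cspan at hf
  induction hf using Submodule.span_induction with
  | mem f hf =>
    obtain ⟨t, ht, rfl⟩ := hf
    exact hX k t ht
  | zero => exact map_zero (derL k X)
  | add a b _ _ ha hb =>
    have h1 := map_add (derL k X) a b
    change der X (a + b) = der X a + der X b at h1
    rw [h1, ha, hb, add_zero]
  | smul c a _ ha =>
    have h1 := map_smul (derL k X) c a
    change der X (c • a) = c • der X a at h1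
    rw [h1, ha, smul_zero]

theorem y_LB (hH : ∀ k : ℕ, ∀ t ∈ B k, HodgeW W t) (σ : ℂ ≃+* ℂ) : W.y.map σ ∈ LB B := by
  intro k t ht
  refine der_cx_conj σ W.y t ?_
  funext J
  exact hH k t ht J

theorem sp_LB (h : Cliff V W Γ c) (hH : ∀ k : ℕ, ∀ t ∈ B k, HodgeW W t) :
    ∀ z ∈ g0 V, sp V Γ c z ∈ LB B := by
  intro z hz
  let L : Submodule ℂ (Matrix (Fin n) (Fin n) ℂ) :=
    { carrier := {z | z ∈ g0 V ∧ spL V Γ c z ∈ LB B}
      zero_mem' := ⟨fun L _ _ => L.zero_mem, by rw [map_zero]; exact (LB B).zero_mem⟩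
      add_mem' := by
        rintro a b ⟨ha, ha'⟩ ⟨hb, hb'⟩
        refine ⟨g0_add V ha hb, ?_⟩
        rw [map_add]
        exact (LB B).add_mem ha' hb'
      smul_mem' := by
        rintro t a ⟨ha, ha'⟩
        refine ⟨g0_smul V t ha, ?_⟩
        rw [map_smul]
        exact (LB B).smul_mem _ ha' }
  refine (hz L ?_ ?_).2
  · rintro a ⟨ha, ha'⟩ b ⟨hb, hb'⟩
    refine ⟨g0_br V ha hb, ?_⟩
    change sp V Γ c (a * b - b * a) ∈ LB B
    rw [h.brk ha]
    exact LB_br _ ha' _ hb'
  · intro σ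
    refine ⟨x_mem V σ, ?_⟩
    change sp V Γ c (V.x.map σ) ∈ LB B
    rw [← h.y σ]
    exact y_LB hH σ

/-- the bilinear forms of the commutant are in the system -/
theorem lef_span (hB : CyclesW W B) {d : Matrix (Fin w) (Fin w) ℂ}
    (hd : ∀ σ : ℂ ≃+* ℂ, d * W.y.map σ = W.y.map σ * d) :
    (fun J : Fin 2 → Fin w => (mC W.E * d) (J 0) (J 1)) ∈ cspan (B 2) := by
  have h1 := inv_span W.y (fun _ => True) (fun J : Fin 2 → Fin w => (mC W.E * d) (J 0) (J 1)) ?_
    (fun _ _ => trivial)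
  · refine Submodule.span_le.2 ?_ h1
    rintro g ⟨t, ht, -, rfl⟩
    have e : t = fun J : Fin 2 → Fin w => (Matrix.of fun a b => t ![a, b]) (J 0) (J 1) := by
      funext J
      rw [Matrix.of_apply]
      congr 1
      funext i
      fin_cases i <;> rfl
    refine Submodule.subset_span ⟨t, ?_, rfl⟩
    change t ∈ B 2
    rw [e]
    apply hB.lefschetz
    rw [← e]
    intro J
    exact congrFun ht J
  · intro σ
    rw [bil_der]
    have h3 := skewW W σ
    have h4 : (W.y.map σ)ᵀ * (mC W.E * d) + mC W.E * d * W.y.map σ = 0 := by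
      rw [← Matrix.mul_assoc, eq_neg_of_add_eq_zero_left h3, Matrix.mul_assoc (mC W.E) d,
        hd σ, ← Matrix.mul_assoc, Matrix.neg_mul, neg_add_cancel]
    rw [h4]
    rfl

theorem bil_zero {M : Matrix (Fin w) (Fin w) ℂ}
    (h : (fun J : Fin 2 → Fin w => M (J 0) (J 1)) = 0) : M = 0 := by
  ext a b
  have := congrFun h ![a, b]
  simpa using this

theorem bil_inj {M N : Matrix (Fin w) (Fin w) ℂ}
    (h : (fun J : Fin 2 → Fin w => M (J 0) (J 1)) = fun J => N (J 0) (J 1)) : M = N := by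
  ext a b
  have := congrFun h ![a, b]
  simpa using this

theorem E_span (hB : CyclesW W B) :
    (fun J : Fin 2 → Fin w => (mC W.E) (J 0) (J 1)) ∈ cspan (B 2) := by
  have h := lef_span hB (d := 1) (fun σ => by rw [Matrix.one_mul, Matrix.mul_one])
  rwa [Matrix.mul_one] at h

theorem LB_skew (hB : CyclesW W B) {X : Matrix (Fin w) (Fin w) ℂ} (hX : X ∈ LB B) :
    Xᵀ * mC W.E + mC W.E * X = 0 := by
  have h1 := LB_span hX (E_span hB)
  rw [bil_der] at h1
  exact bil_zero h1

theorem dg_of_skew (W : HW w) {X : Matrix (Fin w) (Fin w) ℂ}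
    (h : Xᵀ * mC W.E + mC W.E * X = 0) : dg W X = -X := by
  unfold dg
  rw [Matrix.mul_assoc, eq_neg_of_add_eq_zero_left h, Matrix.mul_neg, ← Matrix.mul_assoc, Einv',
    Matrix.one_mul]

theorem skew_of_dg (W : HW w) {X : Matrix (Fin w) (Fin w) ℂ} (h : dg W X = -X) :
    Xᵀ * mC W.E + mC W.E * X = 0 := by
  unfold dg at h
  have h1 : mC W.E * ((mC W.E)⁻¹ * Xᵀ * mC W.E) = Xᵀ * mC W.E := by
    rw [Matrix.mul_assoc, ← Matrix.mul_assoc (mC W.E), Einv, Matrix.one_mul]
  rw [h, Matrix.mul_neg] at h1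
  rw [← h1, neg_add_cancel]

theorem E_cancel (W : HW w) {M N : Matrix (Fin w) (Fin w) ℂ} (h : mC W.E * M = mC W.E * N) :
    M = N := by
  have := congrArg (fun Z => (mC W.E)⁻¹ * Z) h
  simpa only [← Matrix.mul_assoc, Einv', Matrix.one_mul] using this

theorem LB_comm (hB : CyclesW W B) {X : Matrix (Fin w) (Fin w) ℂ} (hX : X ∈ LB B)
    {d : Matrix (Fin w) (Fin w) ℂ} (hd : ∀ σ : ℂ ≃+* ℂ, d * W.y.map σ = W.y.map σ * d) :
    X * d = d * X := by
  have h1 := LB_span hX (lef_span hB hd)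
  rw [bil_der] at h1
  have h2 := bil_zero h1
  rw [← Matrix.mul_assoc, eq_neg_of_add_eq_zero_left (LB_skew hB hX), Matrix.neg_mul,
    Matrix.mul_assoc, Matrix.mul_assoc, neg_add_eq_sub, sub_eq_zero] at h2
  exact (E_cancel W h2).symm

/-- an operator which commutes with the rational endomorphisms commutes with all elements of the
commutant of the conjugates of `y` -/
theorem comm_of_rat {X : Matrix (Fin w) (Fin w) ℂ}
    (hX : ∀ D : Matrix (Fin w) (Fin w) ℚ, mC D * W.y = W.y * mC D → X * mC D = mC D * X)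
    {d : Matrix (Fin w) (Fin w) ℂ} (hd : ∀ σ : ℂ ≃+* ℂ, d * W.y.map σ = W.y.map σ * d) :
    X * d = d * X := by
  have h1 := inv_span W.y (fun _ => True) (fun J : Fin 2 → Fin w => (mC W.E * d) (J 0) (J 1)) ?_
    (fun _ _ => trivial)
  · have h2 : ∃ e : Matrix (Fin w) (Fin w) ℂ, X * e = e * X ∧
        (fun J : Fin 2 → Fin w => (mC W.E * d) (J 0) (J 1)) =
          fun J => (mC W.E * e) (J 0) (J 1) := by
      refine Submodule.span_induction (p := fun f _ => ∃ e : Matrix (Fin w) (Fin w) ℂ,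
        X * e = e * X ∧ f = fun J => (mC W.E * e) (J 0) (J 1)) ?_ ?_ ?_ ?_ h1
      · rintro g ⟨t, ht, -, rfl⟩
        have e : t = fun J : Fin 2 → Fin w => (Matrix.of fun a b => t ![a, b]) (J 0) (J 1) := by
          funext J
          rw [Matrix.of_apply]
          congr 1
          funext i
          fin_cases i <;> rfl
        set N : Matrix (Fin w) (Fin w) ℚ := Matrix.of fun a b => t ![a, b] with hN
        have e' : cx t = fun J : Fin 2 → Fin w => (mC N) (J 0) (J 1) := by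
          rw [e]
          rfl
        have h3 : W.yᵀ * mC N + mC N * W.y = 0 := by
          rw [e', bil_der] at ht
          exact bil_zero ht
        have h4 : mC N = mC W.E * mC (W.E⁻¹ * N) := by
          rw [← mC_mul', ← Matrix.mul_assoc, Matrix.mul_nonsing_inv _
            (isUnit_iff_ne_zero.2 (dE W)), Matrix.one_mul]
        refine ⟨mC (W.E⁻¹ * N), hX _ ?_, ?_⟩
        · apply E_cancel W
          rw [← Matrix.mul_assoc, ← h4, ← Matrix.mul_assoc,
            eq_neg_of_add_eq_zero_right W.skew, Matrix.neg_mul, Matrix.mul_assoc, ← h4]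
          exact eq_neg_of_add_eq_zero_right h3
        · rw [e', ← h4]
      · refine ⟨0, by simp, ?_⟩
        funext J
        simp
      · rintro a b _ _ ⟨e, he, rfl⟩ ⟨e', he', rfl⟩
        refine ⟨e + e', by rw [Matrix.mul_add, Matrix.add_mul, he, he'], ?_⟩
        funext J
        rw [Matrix.mul_add]
        rfl
      · rintro t a _ ⟨e, he, rfl⟩
        refine ⟨t • e, by rw [Matrix.mul_smul, Matrix.smul_mul, he], ?_⟩
        funext J
        rw [Matrix.mul_smul]
        rfl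
    obtain ⟨e, he, h3⟩ := h2
    rw [E_cancel W (bil_inj h3)]
    exact he
  · intro σ
    rw [bil_der]
    have h3 := skewW W σ
    have h4 : (W.y.map σ)ᵀ * (mC W.E * d) + mC W.E * d * W.y.map σ = 0 := by
      rw [← Matrix.mul_assoc, eq_neg_of_add_eq_zero_left h3, Matrix.mul_assoc (mC W.E) d,
        hd σ, ← Matrix.mul_assoc, Matrix.neg_mul, neg_add_cancel]
    rw [h4]
    rfl

end

end

end Pool.Agent.Y89.TS
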