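import Pool.Agent.Y89.TS.Dich1

/-!
# Zero-one law: orthonormal basis of the Clifford generators
-/

open Matrix Finset Function

set_option linter.unusedSectionVars false

namespace Pool.Agent.Y89.TS

noncomputable section

open Pool.Agent.W544.PG (HS HW mC cspan cx)
open Pool.Agent.Y89.KS

section
variable {n w : ℕ} {V : HS n} {W : HW w} {Γ : Fin n → Matrix (Fin w) (Fin w) ℚ} {c : ℚ}
  {B : ∀ k : ℕ, Submodule ℚ ((Fin k → Fin w) → ℚ)}

theorem Qt' (V : HS n) : (mC V.Q)ᵀ = mC V.Q := Qt V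

/-- orthonormal basis for `c Q` -/
theorem exists_onb (V : HS n) {c : ℚ} (hc : c ≠ 0) :
    ∃ U U' : Matrix (Fin n) (Fin n) ℂ, Uᵀ * ((c : ℂ) • mC V.Q) * U = 1 ∧ U * U' = 1 ∧
      U' * U = 1 := by
  apply orth
  · rw [transpose_smul, Qt]
  · rw [det_smul]
    exact mul_ne_zero (pow_ne_zero _ (by exact_mod_cast hc)) (Qdet V)

/-- the generators in an orthonormal basis -/
def ga (Γ : Fin n → Matrix (Fin w) (Fin w) ℚ) (U : Matrix (Fin n) (Fin n) ℂ) (a : Fin n) :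
    Matrix (Fin w) (Fin w) ℂ := gam (fun i => mC (Γ i)) (U.col a)

variable {U U' : Matrix (Fin n) (Fin n) ℂ}

theorem ga_apply (a : Fin n) : ga Γ U a = ∑ i, U i a • mC (Γ i) := by
  unfold ga
  rw [gam_apply]
  rfl

theorem col_form (hU : Uᵀ * ((c : ℂ) • mC V.Q) * U = 1) (a b : Fin n) :
    (c : ℂ) * (U.col a ⬝ᵥ mC V.Q *ᵥ U.col b) = if a = b then 1 else 0 := by
  have h1 := congrFun (congrFun hU a) b
  rw [Matrix.one_apply] at h1
  rw [← h1, Matrix.mul_smul, Matrix.smul_mul, Matrix.smul_apply, smul_eq_mul, Matrix.mul_assoc]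
  rfl

theorem ga_rel (h : Cliff V W Γ c) (hU : Uᵀ * ((c : ℂ) • mC V.Q) * U = 1) (a b : Fin n) :
    ga Γ U a * ga Γ U b + ga Γ U b * ga Γ U a =
      (if a = b then (2 : ℂ) else 0) • (1 : Matrix (Fin w) (Fin w) ℂ) := by
  unfold ga
  rw [gam_rel h.relC, smul_smul]
  congr 1
  have h1 := col_form hU a b
  have h2 : (if a = b then (2 : ℂ) else 0) = 2 * (if a = b then (1 : ℂ) else 0) := by
    split_ifs <;> norm_num
  rw [h2, ← h1]
  ring

theorem ga_clf (h : Cliff V W Γ c) (hU : Uᵀ * ((c : ℂ) • mC V.Q) * U = 1) : Clf (ga Γ U) where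
  sq a := by
    have h1 := ga_rel h hU a a
    rw [if_pos rfl, ← two_smul ℂ] at h1
    exact smul_right_injective _ (two_ne_zero (α := ℂ)) h1
  anti a b hab := by
    have h1 := ga_rel h hU a b
    rw [if_neg hab, zero_smul] at h1
    exact eq_neg_of_add_eq_zero_left h1

/-- the spin representation of `a ∧ b` -/
theorem sp_wdg (V : HS n) (Γ : Fin n → Matrix (Fin w) (Fin w) ℚ) (c : ℚ) (a b : Fin n → ℂ) :
    sp V Γ c (wdg (mC V.Q) a b) = (1 / (4 * (c : ℂ))) •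
      (gam (fun i => mC (Γ i)) a * gam (fun i => mC (Γ i)) b -
        gam (fun i => mC (Γ i)) b * gam (fun i => mC (Γ i)) a) := by
  have h0 : ∀ v : Fin n → ℂ, (mC V.Q *ᵥ v) ᵥ* (mC V.Q)⁻¹ = v := by
    intro v
    have h1 : mC V.Q *ᵥ v = v ᵥ* mC V.Q := by
      rw [← Matrix.mulVec_transpose, Qt]
    rw [h1, Matrix.vecMul_vecMul, QRV, Matrix.vecMul_one]
  have h1 : wdg (mC V.Q) a b * (mC V.Q)⁻¹ = Matrix.vecMulVec a b - Matrix.vecMulVec b a := by
    unfold wdg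
    rw [Matrix.sub_mul, Matrix.vecMulVec_mul, Matrix.vecMulVec_mul, h0, h0]
  unfold sp spin
  rw [h1]
  congr 1
  have h2 : ∀ u v : Fin n → ℂ, gam (fun i => mC (Γ i)) u * gam (fun i => mC (Γ i)) v =
      ∑ i, ∑ j, (u i * v j) • (mC (Γ i) * mC (Γ j)) := by
    intro u v
    rw [gam_apply, gam_apply, Finset.sum_mul]
    refine Finset.sum_congr rfl fun i _ => ?_
    rw [Finset.mul_sum]
    refine Finset.sum_congr rfl fun j _ => ?_
    rw [Matrix.smul_mul, Matrix.mul_smul, smul_smul]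
  rw [h2, h2, ← Finset.sum_sub_distrib]
  refine Finset.sum_congr rfl fun i _ => ?_
  rw [← Finset.sum_sub_distrib]
  refine Finset.sum_congr rfl fun j _ => ?_
  rw [← sub_smul]
  rfl

theorem sp_ga (h : Cliff V W Γ c) (hU : Uᵀ * ((c : ℂ) • mC V.Q) * U = 1) {i j : Fin n}
    (hij : i ≠ j) :
    ga Γ U i * ga Γ U j = (2 * (c : ℂ)) • sp V Γ c (wdg (mC V.Q) (U.col i) (U.col j)) := by
  rw [sp_wdg]
  change _ = (2 * (c : ℂ)) • (1 / (4 * (c : ℂ))) • (ga Γ U i * ga Γ U j - ga Γ U j * ga Γ U i)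
  rw [(ga_clf h hU).anti j i hij.symm, sub_neg_eq_add, smul_smul, ← two_smul ℂ, smul_smul]
  have hc := h.c0
  have h1 : 2 * (c : ℂ) * (1 / (4 * (c : ℂ))) * 2 = 1 := by
    field_simp
    norm_num
  rw [h1, one_smul]

theorem ga_mem (hV : (V.x * V.x).trace = 2) (hS : V.Scalar) (h : Cliff V W Γ c)
    (hH : ∀ k : ℕ, ∀ t ∈ B k, HodgeW W t) (hU : Uᵀ * ((c : ℂ) • mC V.Q) * U = 1) {i j : Fin n}
    (hij : i ≠ j) : ga Γ U i * ga Γ U j ∈ LB B := by
  rw [sp_ga h hU hij]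
  exact (LB B).smul_mem _ (sp_LB h hH _ (wdg_mem hV hS _ _))

theorem ga_dg (hV : (V.x * V.x).trace = 2) (hS : V.Scalar) (h : Cliff V W Γ c)
    (hU : Uᵀ * ((c : ℂ) • mC V.Q) * U = 1) {i j : Fin n}
    (hij : i ≠ j) : dg W (ga Γ U i * ga Γ U j) = -(ga Γ U i * ga Γ U j) := by
  rw [sp_ga h hU hij, dg_smul, dg_of_skew W (h.skew _ (wdg_mem hV hS _ _)), smul_neg]

/-- the generators in terms of the orthonormal ones -/
theorem gen_ga (hUU : U * U' = 1) (j : Fin n) : mC (Γ j) = ∑ a, U' a j • ga Γ U a := by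
  have h1 : ∀ a, U' a j • ga Γ U a = ∑ i, (U i a * U' a j) • mC (Γ i) := by
    intro a
    rw [ga_apply, Finset.smul_sum]
    refine Finset.sum_congr rfl fun i _ => ?_
    rw [smul_smul, mul_comm]
  simp only [h1]
  rw [Finset.sum_comm]
  simp only [← Finset.sum_smul]
  have h2 : ∀ i, ∑ a, U i a * U' a j = if i = j then 1 else 0 := by
    intro i
    rw [← Matrix.mul_apply, hUU, Matrix.one_apply]
  simp only [h2, ite_smul, one_smul, zero_smul, Finset.sum_ite_eq', Finset.mem_univ, if_true]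

/-- the commutant of the even part is the commutant of the conjugates of `y` -/
theorem inD_DD (h : Cliff V W Γ c) (hU : Uᵀ * ((c : ℂ) • mC V.Q) * U = 1) (hUU : U * U' = 1)
    {d : Matrix (Fin w) (Fin w) ℂ} (hd : InD (ga Γ U) d) (σ : ℂ ≃+* ℂ) :
    d * W.y.map σ = W.y.map σ * d := by
  have h1 : ∀ i j, d * (mC (Γ i) * mC (Γ j)) = mC (Γ i) * mC (Γ j) * d := by
    intro i j
    rw [gen_ga hUU i, gen_ga hUU j, Finset.sum_mul_sum, Finset.mul_sum, Finset.sum_mul]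
    refine Finset.sum_congr rfl fun a _ => ?_
    rw [Finset.mul_sum, Finset.sum_mul]
    refine Finset.sum_congr rfl fun b _ => ?_
    rw [Matrix.smul_mul, Matrix.mul_smul, Matrix.mul_smul, Matrix.mul_smul, hd a b,
      Matrix.smul_mul, Matrix.smul_mul]
  rw [h.y σ]
  unfold sp spin
  rw [Matrix.mul_smul, Matrix.smul_mul, Finset.mul_sum, Finset.sum_mul]
  congr 1
  refine Finset.sum_congr rfl fun i _ => ?_
  rw [Finset.mul_sum, Finset.sum_mul]
  refine Finset.sum_congr rfl fun j _ => ?_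
  rw [Matrix.mul_smul, Matrix.smul_mul, h1]

theorem five_le (hV : (V.x * V.x).trace = 2) (hn : n % 4 = 1) : 5 ≤ n := by
  by_contra hc
  have h1 : n = 1 := by omega
  subst h1
  have h2 := congrFun (congrFun V.skew 0) 0
  simp only [Matrix.add_apply, Matrix.mul_apply, Fin.sum_univ_one, Matrix.transpose_apply,
    Matrix.zero_apply, Fin.isValue] at h2
  have h3 : mC V.Q 0 0 ≠ 0 := by
    intro h3
    apply Qdet V
    rw [Matrix.det_unique]
    exact h3
  have h4 : V.x 0 0 * mC V.Q 0 0 = 0 := by linear_combination h2 / 2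
  have h5 : V.x 0 0 = 0 := (mul_eq_zero.1 h4).resolve_right h3
  rw [Matrix.trace_fin_one, Matrix.mul_apply, Fin.sum_univ_one, h5, zero_mul] at hV
  norm_num at hV

/-- the alternative for the Lie algebra of the symmetries -/
theorem alt (hmax : S_max) (hV : (V.x * V.x).trace = 2) (hS : V.Scalar) (hn : n % 4 = 1)
    (h : Cliff V W Γ c) (hB : CyclesW W B) (hH : ∀ k : ℕ, ∀ t ∈ B k, HodgeW W t)
    (hU : Uᵀ * ((c : ℂ) • mC V.Q) * U = 1) (hUU : U * U' = 1) :
    (∀ a ∈ LB B, a ∈ Submodule.span ℂ {z | ∃ i j, i ≠ j ∧ z = ga Γ U i * ga Γ U j}) ∨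
    ∀ a, dg W a = -a → (∀ d, InD (ga Γ U) d → a * d = d * a) → a ∈ LB B := by
  refine hmax (Fin w) n (ga Γ U) (ga_clf h hU) hn (five_le hV hn) (dgL W) (dg_mul W) ?_ (LB B)
    LB_br ?_ ?_
  · intro i j hij
    exact ga_dg hV hS h hU hij
  · intro i j hij
    exact ga_mem hV hS h hH hU hij
  · intro a ha
    refine ⟨dg_of_skew W (LB_skew hB ha), fun d hd => LB_comm hB ha ?_⟩
    exact inD_DD h hU hUU hd

/-- if some class of the system is not a Lefschetz class, the Lie algebra is the spin algebra -/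
theorem spin_case (hmax : S_max) (hV : (V.x * V.x).trace = 2) (hS : V.Scalar) (hn : n % 4 = 1)
    (h : Cliff V W Γ c) (hB : CyclesW W B) (hH : ∀ k : ℕ, ∀ t ∈ B k, HodgeW W t)
    (hU : Uᵀ * ((c : ℂ) • mC V.Q) * U = 1) (hUU : U * U' = 1)
    {X : Matrix (Fin w) (Fin w) ℂ} {k : ℕ} {f : (Fin k → Fin w) → ℚ} (hf : f ∈ B k)
    (hX : ∀ D : Matrix (Fin w) (Fin w) ℚ, mC D * W.y = W.y * mC D → X * mC D = mC D * X)
    (hX' : Xᵀ * mC W.E + mC W.E * X = 0) (hXf : der X (cx f) ≠ 0) :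
    ∀ a ∈ LB B, a ∈ Submodule.span ℂ {z | ∃ i j, i ≠ j ∧ z = ga Γ U i * ga Γ U j} := by
  rcases alt hmax hV hS hn h hB hH hU hUU with h1 | h1
  · exact h1
  · exfalso
    apply hXf
    refine h1 X (dg_of_skew W hX') (fun d hd => ?_) k f hf
    exact comm_of_rat hX (inD_DD h hU hUU hd)

end

end

end Pool.Agent.Y89.TS
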