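import Pool.Agent.Y89.TS.Dich2
import Pool.Agent.Y761.TS.Base

/-!
# Zero-one law: the class `Θ`
-/

open Matrix Finset Function

set_option linter.unusedSectionVars false

namespace Pool.Agent.Y89.TS

noncomputable section

open Pool.Agent.W544.PG (HS HW mC cspan cx)
open Pool.Agent.Y89.KS
open Pool.Agent.Y761.TS (act_act act_one actL)

section real
variable {ι : Type} [Fintype ι] [DecidableEq ι]

/-- positive definite real matrices are `Sᵀ S` -/
theorem real_root (M : Matrix ι ι ℝ) (hs : Mᵀ = M)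
    (hp : ∀ v : ι → ℝ, v ≠ 0 → 0 < v ⬝ᵥ M *ᵥ v) : ∃ S : Matrix ι ι ℝ, Sᵀ * S = M := by
  have h1 : M.PosDef := by
    rw [posDef_iff_dotProduct_mulVec]
    refine ⟨by rw [IsHermitian, conjTranspose_eq_transpose_of_trivial, hs], fun v hv => ?_⟩
    have := hp v hv
    simpa using this
  have hA : M.IsHermitian := h1.isHermitian
  have h2 := hA.spectral_theorem
  rw [Unitary.conjStarAlgAut_apply] at h2
  set U : Matrix ι ι ℝ := (hA.eigenvectorUnitary : Matrix ι ι ℝ) with hU
  refine ⟨diagonal (fun i => Real.sqrt (hA.eigenvalues i)) * Uᵀ, ?_⟩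
  have h3 : (star U : Matrix ι ι ℝ) = Uᵀ := by
    rw [star_eq_conjTranspose, conjTranspose_eq_transpose_of_trivial]
  rw [h3] at h2
  rw [transpose_mul, transpose_transpose, diagonal_transpose, Matrix.mul_assoc,
    ← Matrix.mul_assoc (diagonal _), diagonal_mul_diagonal]
  conv_rhs => rw [h2]
  rw [Matrix.mul_assoc]
  congr 3
  funext i
  have h4 := h1.eigenvalues_pos i
  rw [Real.mul_self_sqrt h4.le]
  rfl

end real

section act
variable {ι : Type} [Fintype ι] [DecidableEq ι]

/-- the action on bilinear forms -/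
theorem act_bil (g M : Matrix ι ι ℂ) :
    act gᵀ (fun J : Fin 2 → ι => M (J 0) (J 1)) = fun J => (gᵀ * M * g) (J 0) (J 1) := by
  funext I
  unfold act
  rw [← (finTwoArrowEquiv ι).symm.sum_comp, Fintype.sum_prod_type]
  simp only [finTwoArrowEquiv_symm_apply, Fin.prod_univ_two, Matrix.cons_val_zero,
    Matrix.cons_val_one, Matrix.transpose_apply, Matrix.mul_apply, Finset.sum_mul]
  rw [Finset.sum_comm]
  refine Finset.sum_congr rfl fun b _ => Finset.sum_congr rfl fun a _ => ?_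
  ring

theorem bil4 {m : ℕ} (g : Matrix ι ι ℂ) (M N : Fin m → Matrix ι ι ℂ) :
    act gᵀ (fun J : Fin 4 → ι => ∑ a, M a (J 0) (J 1) * N a (J 2) (J 3)) =
      fun J => ∑ a, (gᵀ * M a * g) (J 0) (J 1) * (gᵀ * N a * g) (J 2) (J 3) := by
  funext I
  have h1 : ∀ K L : Matrix ι ι ℂ, act gᵀ (fun J : Fin 4 → ι => K (J 0) (J 1) * L (J 2) (J 3)) I =
      (gᵀ * K * g) (I 0) (I 1) * (gᵀ * L * g) (I 2) (I 3) := by
    intro K L
    have hK := congrFun (act_bil g K) ![I 0, I 1]
    have hL := congrFun (act_bil g L) ![I 2, I 3]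
    simp only [Matrix.cons_val_zero, Matrix.cons_val_one] at hK hL
    rw [← hK, ← hL]
    have h2 := congrFun (Pool.Agent.Y761.TS.act_mul gᵀ (fun J : Fin 2 → ι => K (J 0) (J 1))
      (fun J : Fin 2 → ι => L (J 0) (J 1))) I
    have e1 : (fun i : Fin 2 => I (Fin.castAdd 2 i)) = ![I 0, I 1] := by
      funext i; fin_cases i <;> rfl
    have e2 : (fun i : Fin 2 => I (Fin.natAdd 2 i)) = ![I 2, I 3] := by
      funext i; fin_cases i <;> rfl
    rw [e1, e2] at h2
    exact h2
  have h2 : (fun J : Fin 4 → ι => ∑ a, M a (J 0) (J 1) * N a (J 2) (J 3)) =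
      ∑ a, fun J : Fin 4 → ι => M a (J 0) (J 1) * N a (J 2) (J 3) := by
    funext J
    rw [Finset.sum_apply]
  rw [h2]
  have h3 := map_sum (actL gᵀ 4) (fun a => fun J : Fin 4 → ι => M a (J 0) (J 1) * N a (J 2) (J 3))
    Finset.univ
  change act gᵀ _ = ∑ a, act gᵀ _ at h3
  rw [h3, Finset.sum_apply]
  exact Finset.sum_congr rfl fun a _ => h1 _ _

/-- the reindexing `(J, p) ↦ (update J j p, J j)` -/
def swp {k : ℕ} (j : Fin k) : Equiv.Perm ((Fin k → ι) × ι) where
  toFun x := (update x.1 j x.2, x.1 j)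
  invFun x := (update x.1 j x.2, x.1 j)
  left_inv x := by simp
  right_inv x := by simp

/-- derivations and the action -/
theorem act_der (g Y Z : Matrix ι ι ℂ) (h : Y * g = g * Z) {k : ℕ} (f : (Fin k → ι) → ℂ) :
    act gᵀ (der Y f) = der Z (act gᵀ f) := by
  funext I
  have hl : act gᵀ (der Y f) I = ∑ j, act gᵀ (sl j Y f) I := by
    unfold act der
    simp only [Finset.mul_sum]
    rw [Finset.sum_comm]
  rw [hl]
  unfold der
  refine Finset.sum_congr rfl fun j _ => ?_
  unfold act sl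
  simp only [Finset.mul_sum]
  rw [← Fintype.sum_prod_type', ← Fintype.sum_prod_type', ← Equiv.sum_comp (swp j)]
  have h1 : ∀ (I' J' : Fin k → ι), ∏ s, gᵀ (I' s) (J' s) =
      gᵀ (I' j) (J' j) * ∏ s ∈ univ.erase j, gᵀ (I' s) (J' s) := by
    intro I' J'
    rw [Finset.mul_prod_erase _ (fun s => gᵀ (I' s) (J' s)) (Finset.mem_univ j)]
  simp only [swp, Equiv.coe_fn_mk, update_self, update_idem, update_eq_self, h1]
  rw [Fintype.sum_prod_type, Fintype.sum_prod_type, Finset.sum_comm (s := univ) (t := univ)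
    (f := fun (p : ι) (J : Fin k → ι) => _)]
  refine Finset.sum_congr rfl fun J _ => ?_
  have h2 : ∀ p, ∏ s ∈ univ.erase j, gᵀ (I s) (update J j p s) =
      ∏ s ∈ univ.erase j, gᵀ (I s) (J s) := by
    intro p
    refine Finset.prod_congr rfl fun s hs => ?_
    rw [update_of_ne (Finset.ne_of_mem_erase hs)]
  have h3 : ∀ p, ∏ s ∈ univ.erase j, gᵀ (update I j p s) (J s) =
      ∏ s ∈ univ.erase j, gᵀ (I s) (J s) := by
    intro p
    refine Finset.prod_congr rfl fun s hs => ?_
    rw [update_of_ne (Finset.ne_of_mem_erase hs)]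
  simp only [h2, h3]
  have h4 := congrFun (congrFun h (J j)) (I j)
  rw [Matrix.mul_apply, Matrix.mul_apply] at h4
  have h5 : ∑ p, gᵀ (I j) p * (∏ s ∈ univ.erase j, gᵀ (I s) (J s)) * (Y (J j) p * f J) =
      (∑ p, Y (J j) p * g p (I j)) * ((∏ s ∈ univ.erase j, gᵀ (I s) (J s)) * f J) := by
    rw [Finset.sum_mul]
    refine Finset.sum_congr rfl fun p _ => ?_
    rw [Matrix.transpose_apply]
    ring
  rw [h5, h4, Finset.sum_mul]
  refine Finset.sum_congr rfl fun p _ => ?_
  rw [Matrix.transpose_apply]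
  ring

end act

end

end Pool.Agent.Y89.TS
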