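import Pool.Agent.Y89.TS.Stm
import Pool.Agent.Y89.KS.Defs

/-!
# Tensor systems and compact groups: definitions and parts, II
-/

open Matrix Finset

namespace Pool.Agent.Y89.TS

noncomputable section

open Pool.Agent.Y89.KS (Sys der)

/-- a real matrix as a complex matrix -/
abbrev rc {ι : Type} (S : Matrix ι ι ℝ) : Matrix ι ι ℂ := S.map fun r : ℝ => (r : ℂ)

/-- (BASE) the form of (T0) for systems closed under contraction with a matrix `R`, where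
`(Sᵀ S)⁻¹ = C R` for a real matrix `S` and `C` preserves the system -/
def S_T0R : Prop := ∀ (ι : Type) [Fintype ι] [DecidableEq ι] (R C : Matrix ι ι ℂ)
  (S : Matrix ι ι ℝ) (A : ∀ k : ℕ, Submodule ℂ ((Fin k → ι) → ℂ)), Sys R A → S.det ≠ 0 →
  (rc (Sᵀ * S))⁻¹ = C * R →
  (∀ (k : ℕ) (f : (Fin k → ι) → ℂ), f ∈ A k →
    (fun J : Fin k → ι => starRingEnd ℂ (f J)) ∈ A k) →
  (∀ (k : ℕ) (f : (Fin k → ι) → ℂ), f ∈ A k → act Cᵀ f ∈ A k) →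
  ∀ (k : ℕ) (f : (Fin k → ι) → ℂ),
  (∀ g : Matrix ι ι ℂ, gᴴ * rc (Sᵀ * S) * g = rc (Sᵀ * S) →
    (∀ (l : ℕ), ∀ x ∈ A l, act gᵀ x = x) → act gᵀ f = f) →
  f ∈ A k

/-- (WEIL) the Weil operator fixes the Hodge classes -/
def S_weil : Prop := ∀ (ι : Type) [Fintype ι] [DecidableEq ι] (y : Matrix ι ι ℂ),
  (4 : ℂ) • (y * y) = 1 → ∀ (k : ℕ) (f : (Fin k → ι) → ℂ), der y f = 0 →
  act ((2 * Complex.I) • y)ᵀ f = f

/-- orthonormal Clifford system -/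
structure Clf {N : Type} [Fintype N] [DecidableEq N] {n : ℕ} (Γ : Fin n → Matrix N N ℂ) : Prop where
  sq : ∀ i, Γ i * Γ i = 1
  anti : ∀ i j, i ≠ j → Γ i * Γ j = -(Γ j * Γ i)

/-- the monomials -/
def mono {N : Type} [Fintype N] [DecidableEq N] {n : ℕ} (Γ : Fin n → Matrix N N ℂ)
    (s : Finset (Fin n)) : Matrix N N ℂ := ((s.sort (· ≤ ·)).map Γ).prod

/-- the commutant of the even monomials -/
def InD {N : Type} [Fintype N] [DecidableEq N] {n : ℕ} (Γ : Fin n → Matrix N N ℂ)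
    (d : Matrix N N ℂ) : Prop := ∀ i j, d * (Γ i * Γ j) = Γ i * Γ j * d

/-- (MONO) rules for the monomials -/
def S_mono : Prop := ∀ (N : Type) [Fintype N] [DecidableEq N] (n : ℕ)
  (Γ : Fin n → Matrix N N ℂ), Clf Γ →
  mono Γ ∅ = 1 ∧ (∀ i, mono Γ {i} = Γ i) ∧
  (∀ s t : Finset (Fin n), mono Γ s * mono Γ t = mono Γ (symmDiff s t) ∨
    mono Γ s * mono Γ t = -mono Γ (symmDiff s t)) ∧
  ∀ s t : Finset (Fin n), mono Γ s * mono Γ t =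
    ((-1 : ℂ) ^ (s.card * t.card + (s ∩ t).card)) • (mono Γ t * mono Γ s)

/-- (COMM) the double commutant of the even monomials -/
def S_comm : Prop := ∀ (N : Type) [Fintype N] [DecidableEq N] (n : ℕ)
  (Γ : Fin n → Matrix N N ℂ), Clf Γ → ∀ a : Matrix N N ℂ, (∀ d, InD Γ d → a * d = d * a) →
  a ∈ Submodule.span ℂ {z | ∃ s : Finset (Fin n), Even s.card ∧ z = mono Γ s}

/-- (MAX) maximality of the spin representation -/
def S_max : Prop := ∀ (N : Type) [Fintype N] [DecidableEq N] (n : ℕ)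
  (Γ : Fin n → Matrix N N ℂ), Clf Γ → n % 4 = 1 → 5 ≤ n →
  ∀ τ : Matrix N N ℂ →ₗ[ℂ] Matrix N N ℂ, (∀ a b, τ (a * b) = τ b * τ a) →
  (∀ i j, i ≠ j → τ (Γ i * Γ j) = -(Γ i * Γ j)) →
  ∀ L : Submodule ℂ (Matrix N N ℂ), (∀ a ∈ L, ∀ b ∈ L, a * b - b * a ∈ L) →
  (∀ i j, i ≠ j → Γ i * Γ j ∈ L) → (∀ a ∈ L, τ a = -a ∧ ∀ d, InD Γ d → a * d = d * a) →
  (∀ a ∈ L, a ∈ Submodule.span ℂ {z | ∃ i j, i ≠ j ∧ z = Γ i * Γ j}) ∨
  ∀ a, τ a = -a → (∀ d, InD Γ d → a * d = d * a) → a ∈ L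

/-- (THETA) operators normalising the spin representation preserve the tensor `∑ Γ i ⊗ Γ i` -/
def S_theta : Prop := ∀ (N : Type) [Fintype N] [DecidableEq N] (n : ℕ)
  (Γ : Fin n → Matrix N N ℂ), Clf Γ → Odd n → ∀ g g' : Matrix N N ℂ, g * g' = 1 → g' * g = 1 →
  (∀ d, InD Γ d → g * d = d * g) →
  (∀ i j, i ≠ j → g * (Γ i * Γ j) * g' ∈ Submodule.span ℂ {z | ∃ i j, i ≠ j ∧ z = Γ i * Γ j}) →
  ∀ M : Matrix N N ℂ,
    ∑ i, (Γ i * (g' * M * g)).trace • (g * Γ i * g') = ∑ i, (Γ i * M).trace • Γ i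

end

end Pool.Agent.Y89.TS
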