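import Pool.Agent.Y89.TS.Dich4
import Pool.Agent.Y488.TS.SW
import Pool.Agent.Y888.TS.EQV
import Pool.Agent.Y108.TS.GL
import Pool.Agent.Y210.TS.LIN
import Pool.Agent.Y657.TS.T0
import Pool.Agent.Y259.TS.Weil
import Pool.Agent.Y259.TS.Mono
import Pool.Agent.Y165.TS.COMM
import Pool.Agent.Y998.TS.MAX
import Pool.Agent.Y165.TS.THETA

/-!
# Zero-one law for the powers of a Kuga-Satake variety: main theorem
-/

open Matrix Finset

namespace Pool.Agent.Y89.TS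

noncomputable section

open Pool.Agent.W544.PG (HS HW mC cspan cx)
open Pool.Agent.Y89.KS

/-- the Tannaka-Schrijver theorem -/
theorem tT0 : S_T0 := Pool.Agent.Y657.TS.t_T0 Pool.Agent.Y488.TS.t_sw Pool.Agent.Y488.TS.t_fix
  Pool.Agent.Y888.TS.t_eqv Pool.Agent.Y108.TS.GL.t_gl Pool.Agent.Y210.TS.t_lin

theorem tT0R : S_T0R := Pool.Agent.Y761.TS.t_T0R tT0

theorem zol {n w : ℕ} {V : HS n} {W : HW w} {Γ : Fin n → Matrix (Fin w) (Fin w) ℚ} {c : ℚ}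
    {B : ∀ k : ℕ, Submodule ℚ ((Fin k → Fin w) → ℚ)}
    (hV : (V.x * V.x).trace = 2) (hS : V.Scalar) (hn : n % 4 = 1)
    (h : Cliff V W Γ c) (hB : CyclesW W B) (hH : ∀ k : ℕ, ∀ t ∈ B k, HodgeW W t)
    {X : Matrix (Fin w) (Fin w) ℂ} {m : ℕ} {f : (Fin m → Fin w) → ℚ} (hf : f ∈ B m)
    (hX : ∀ D : Matrix (Fin w) (Fin w) ℚ, mC D * W.y = W.y * mC D → X * mC D = mC D * X)
    (hX' : Xᵀ * mC W.E + mC W.E * X = 0) (hXf : der X (cx f) ≠ 0)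
    {k : ℕ} {t : (Fin k → Fin w) → ℚ} (ht : HodgeW W t) : t ∈ B k :=
  zeroOne tT0R Pool.Agent.Y259.TS.t_weil
    (Pool.Agent.Y998.TS.t_max Pool.Agent.Y259.TS.t_mono (Pool.Agent.Y165.TS.t_comm Pool.Agent.Y259.TS.t_mono))
    (Pool.Agent.Y165.TS.t_theta Pool.Agent.Y259.TS.t_mono) hV hS hn h hB hH hf hX hX' hXf ht

end

end Pool.Agent.Y89.TS
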